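import Mathlib

/-!
# Developments of Hadamard difference sets need not embed as sets of maximal arcs

Let `M = {(0,0), (0,1), (1,0), (2,0), (5,1), (6,0)}` in `G = ℤ/8 × ℤ/2`, a `(16, 6, 2)`
difference set.  Suppose an injection `φ` of `G` into a projective plane sends all translates of
`M` to maximal arcs of degree `2`.  The trace `S` on `G` of any line meets every translate of `M`
in `0` or `2` points.  If `S` contains `(0,0)` and one of `(3,0)`, `(3,1)`, then it contains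
`(0,1)`; so the lines through `(0,0), (3,0)` and through `(0,0), (3,1)` coincide, which is
impossible.
-/

namespace Pool.Agent.Results.MP_82bed6_co.NoEmbedding

universe u v

/-- `M` is a Hadamard difference set of order `2 ^ (2b-2)` in the abelian group `G`
(written additively): `|G| = 2^(2b)`, `|M| = 2^(2b-1) - 2^(b-1)` and every nonzero `g`
has exactly `2^(2b-2) - 2^(b-1)` representations `g = m - m'` with `m, m'` in `M`. -/
def IsHadamardDifferenceSet (b : ℕ) (G : Type) [AddCommGroup G] (M : Finset G) : Prop :=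
  Nat.card G = 2 ^ (2 * b) ∧ M.card = 2 ^ (2 * b - 1) - 2 ^ (b - 1) ∧
    ∀ g : G, g ≠ 0 →
      {p : G × G | p.1 ∈ M ∧ p.2 ∈ M ∧ p.1 - p.2 = g}.ncard = 2 ^ (2 * b - 2) - 2 ^ (b - 1)

/-- A set of points of a projective plane meeting every line in `0` or in exactly `d` points. -/
def IsMaximalArc (P L : Type*) [Membership P L] (d : ℕ) (A : Set P) : Prop :=
  ∀ l : L, (A ∩ {p | p ∈ l}).ncard = 0 ∨ (A ∩ {p | p ∈ l}).ncard = d

/-- `dev M` embeds into the projective plane `(P, L)` as a set of maximal arcs of degree `d`: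
some injection `G → P` sends every translate of `M` to a maximal arc of degree `d`. -/
def Embeds (G : Type) [AddCommGroup G] (M : Finset G) (P L : Type*) [Membership P L]
    (d : ℕ) : Prop :=
  ∃ φ : G → P, Function.Injective φ ∧
    ∀ g : G, IsMaximalArc P L d (φ '' {x | ∃ m ∈ M, x = m + g})

/-- zero or two of the six values are true -/
def ok (a b c d e f : Bool) : Bool :=
  let s := a.toNat + b.toNat + c.toNat + d.toNat + e.toNat + f.toNat
  s == 0 || s == 2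

set_option synthInstance.maxSize 4000 in
theorem key1 : ∀ x2 : Bool, ∀ x3 : Bool, ∀ x4 : Bool, ∀ x5 : Bool, ∀ x7 : Bool, ∀ x8 : Bool, ∀ x10 : Bool, 
    ok false x2 true x7 x8 x10 = true → ∀ x13 : Bool, 
    ok true false x3 x5 x10 x13 = true → ∀ x14 : Bool, 
    ok x2 x3 x4 true x13 x14 = true → ∀ x9 : Bool, 
    ok false x4 x5 x7 x9 x14 = true → ∀ x11 : Bool, 
    ok true x3 true x7 x9 x11 = true → 
    ok x2 x5 x8 x9 x11 x13 = true → ∀ x12 : Bool, 
    ok true false x2 x4 x11 x12 = true → 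
    ok x3 x4 x8 x9 x10 x12 = true → 
    ok x5 true x10 x11 x12 x14 = true → 
    ok true x7 x8 x12 x13 x14 = true → ∀ x15 : Bool, 
    ok x2 x3 x5 x7 x12 x15 = true → 
    ok true x4 x5 true x8 x15 = true → 
    ok x4 x7 x10 x11 x13 x15 = true → 
    ok false true x9 x12 x13 x15 = true → 
    ok true x2 x9 x10 x14 x15 = true → 
    ok false x3 x8 x11 x14 x15 = true → False := by
  decide +kernel

set_option synthInstance.maxSize 4000 in
theorem key2 : ∀ x2 : Bool, ∀ x3 : Bool, ∀ x4 : Bool, ∀ x5 : Bool, ∀ x6 : Bool, ∀ x8 : Bool, ∀ x10 : Bool, 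
    ok false x2 x6 true x8 x10 = true → ∀ x13 : Bool, 
    ok true false x3 x5 x10 x13 = true → ∀ x14 : Bool, 
    ok x2 x3 x4 x6 x13 x14 = true → ∀ x9 : Bool, 
    ok false x4 x5 true x9 x14 = true → ∀ x11 : Bool, 
    ok true x3 x6 true x9 x11 = true → 
    ok x2 x5 x8 x9 x11 x13 = true → ∀ x12 : Bool, 
    ok true false x2 x4 x11 x12 = true → 
    ok x3 x4 x8 x9 x10 x12 = true → 
    ok x5 x6 x10 x11 x12 x14 = true → 
    ok true true x8 x12 x13 x14 = true → ∀ x15 : Bool, 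
    ok x2 x3 x5 true x12 x15 = true → 
    ok true x4 x5 x6 x8 x15 = true → 
    ok x4 true x10 x11 x13 x15 = true → 
    ok false x6 x9 x12 x13 x15 = true → 
    ok true x2 x9 x10 x14 x15 = true → 
    ok false x3 x8 x11 x14 x15 = true → False := by
  decide +kernel

set_option synthInstance.maxSize 4000 in
theorem key3 : ∀ x1 : Bool, ∀ x2 : Bool, ∀ x3 : Bool, ∀ x4 : Bool, ∀ x5 : Bool, ∀ x8 : Bool, ∀ x10 : Bool, 
    ok x1 x2 true true x8 x10 = true → ∀ x13 : Bool, 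
    ok true x1 x3 x5 x10 x13 = true → ∀ x14 : Bool, 
    ok x2 x3 x4 true x13 x14 = true → ∀ x9 : Bool, 
    ok x1 x4 x5 true x9 x14 = true → ∀ x11 : Bool, 
    ok true x3 true true x9 x11 = true → 
    ok x2 x5 x8 x9 x11 x13 = true → ∀ x12 : Bool, 
    ok true x1 x2 x4 x11 x12 = true → 
    ok x3 x4 x8 x9 x10 x12 = true → 
    ok x5 true x10 x11 x12 x14 = true → 
    ok true true x8 x12 x13 x14 = true → ∀ x15 : Bool, 
    ok x2 x3 x5 true x12 x15 = true → 
    ok true x4 x5 true x8 x15 = true → 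
    ok x4 true x10 x11 x13 x15 = true → 
    ok x1 true x9 x12 x13 x15 = true → 
    ok true x2 x9 x10 x14 x15 = true → 
    ok x1 x3 x8 x11 x14 x15 = true → False := by
  decide +kernel

/-- the group `ℤ/8 × ℤ/2` of order 16 -/
abbrev G₀ : Type := ZMod 8 × ZMod 2

/-- a Hadamard difference set of order 4 in `ℤ/8 × ℤ/2` -/
def M₀ : Finset G₀ := {(0, 0), (0, 1), (1, 0), (2, 0), (5, 1), (6, 0)}

theorem M₀_hds : IsHadamardDifferenceSet 2 G₀ M₀ := by
  refine ⟨?_, by decide, ?_⟩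
  · simp
  · have key : ∀ g : G₀, g ≠ 0 →
        ((M₀ ×ˢ M₀).filter (fun p => p.1 - p.2 = g)).card = 2 := by decide +kernel
    intro g hg
    have h1 : {p : G₀ × G₀ | p.1 ∈ M₀ ∧ p.2 ∈ M₀ ∧ p.1 - p.2 = g} =
        ((M₀ ×ˢ M₀).filter (fun p => p.1 - p.2 = g) : Finset (G₀ × G₀)) := by
      ext p
      simp [and_assoc]
    rw [h1, Set.ncard_coe_finset, key g hg]
    norm_num

/-- the sum over a translate of `M₀` of a Boolean function is `0` or `2` -/
theorem ok_of_arc {P L : Type*} [Membership P L] {φ : G₀ → P} (hφ : Function.Injective φ)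
    (l : L) (g : G₀) (h : IsMaximalArc P L 2 (φ '' {x | ∃ m ∈ M₀, x = m + g}))
    (s : G₀ → Bool) (hs : ∀ x, s x = true ↔ φ x ∈ l) :
    ok (s ((0, 0) + g)) (s ((0, 1) + g)) (s ((1, 0) + g)) (s ((2, 0) + g)) (s ((5, 1) + g))
      (s ((6, 0) + g)) = true := by
  have h1 : (φ '' {x | ∃ m ∈ M₀, x = m + g}) ∩ {p | p ∈ l} =
      (fun m => φ (m + g)) '' ((M₀.filter (fun m => s (m + g) = true) : Finset G₀) : Set G₀) := by
    ext p
    constructor
    · rintro ⟨⟨x, ⟨m, hm, rfl⟩, rfl⟩, hp⟩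
      exact ⟨m, by simp [hm, hs]; exact hp, rfl⟩
    · rintro ⟨m, hm, rfl⟩
      simp only [Finset.coe_filter, Set.mem_ofPred_eq, hs] at hm
      exact ⟨⟨m + g, ⟨m, hm.1, rfl⟩, rfl⟩, hm.2⟩
  have hinj : Function.Injective (fun m : G₀ => φ (m + g)) := fun a b hab =>
    add_right_cancel (hφ hab)
  have h2 := h l
  rw [h1, Set.ncard_image_of_injective _ hinj, Set.ncard_coe_finset, Finset.card_filter] at h2
  have h3 : (∑ m ∈ M₀, if s (m + g) = true then 1 else 0) =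
      (s ((0, 0) + g)).toNat + (s ((0, 1) + g)).toNat + (s ((1, 0) + g)).toNat +
      (s ((2, 0) + g)).toNat + (s ((5, 1) + g)).toNat + (s ((6, 0) + g)).toNat := by
    have e : ∀ x : Bool, (if x = true then 1 else 0) = x.toNat := by decide
    simp only [e]
    rw [M₀, Finset.sum_insert (by decide), Finset.sum_insert (by decide),
      Finset.sum_insert (by decide), Finset.sum_insert (by decide), Finset.sum_insert (by decide),
      Finset.sum_singleton]
    ring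
  rw [h3] at h2
  simp only [ok, Bool.or_eq_true, beq_iff_eq]
  exact h2

/-- `ok` does not depend on the order -/
theorem ok_perm (t : G₀ → Bool) {l l' : List G₀} (_h : l.Perm l') :
    ((l.map fun x => (t x).toNat).sum) = ((l'.map fun x => (t x).toNat).sum) :=
  (_h.map _).sum_eq

theorem ok_iff (t : G₀ → Bool) (a b c d e f : G₀) :
    ok (t a) (t b) (t c) (t d) (t e) (t f) = true ↔
      ([a, b, c, d, e, f].map fun x => (t x).toNat).sum = 0 ∨
      ([a, b, c, d, e, f].map fun x => (t x).toNat).sum = 2 := by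
  simp [ok, add_assoc]

theorem ok_reorder (t : G₀ → Bool) {a b c d e f a' b' c' d' e' f' : G₀}
    (h : ok (t a) (t b) (t c) (t d) (t e) (t f) = true)
    (hp : List.Perm [a, b, c, d, e, f] [a', b', c', d', e', f']) :
    ok (t a') (t b') (t c') (t d') (t e') (t f') = true := by
  rw [ok_iff] at h ⊢
  rwa [← ok_perm t hp]

theorem arc1 (t : G₀ → Bool) (h : ∀ g : G₀, ok (t ((0, 0) + g)) (t ((0, 1) + g)) (t ((1, 0) + g)) (t ((2, 0) + g))
    (t ((5, 1) + g)) (t ((6, 0) + g)) = true)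
    (h0 : t (0, 0) = true)
    (h6 : t (3, 0) = true)
    (h1 : t (0, 1) = false) : False := by
  have b0 : ok (t (0, 0)) (t (0, 1)) (t (1, 0)) (t (2, 0)) (t (5, 1)) (t (6, 0)) = true :=
    ok_reorder t (h (0, 0)) (by decide)
  have b1 : ok (t (0, 0)) (t (0, 1)) (t (1, 1)) (t (2, 1)) (t (5, 0)) (t (6, 1)) = true :=
    ok_reorder t (h (0, 1)) (by decide)
  have b2 : ok (t (1, 0)) (t (1, 1)) (t (2, 0)) (t (3, 0)) (t (6, 1)) (t (7, 0)) = true :=
    ok_reorder t (h (1, 0)) (by decide)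
  have b3 : ok (t (1, 0)) (t (1, 1)) (t (2, 1)) (t (3, 1)) (t (6, 0)) (t (7, 1)) = true :=
    ok_reorder t (h (1, 1)) (by decide)
  have b4 : ok (t (0, 0)) (t (2, 0)) (t (2, 1)) (t (3, 0)) (t (4, 0)) (t (7, 1)) = true :=
    ok_reorder t (h (2, 0)) (by decide)
  have b5 : ok (t (0, 1)) (t (2, 0)) (t (2, 1)) (t (3, 1)) (t (4, 1)) (t (7, 0)) = true :=
    ok_reorder t (h (2, 1)) (by decide)
  have b6 : ok (t (0, 1)) (t (1, 0)) (t (3, 0)) (t (3, 1)) (t (4, 0)) (t (5, 0)) = true :=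
    ok_reorder t (h (3, 0)) (by decide)
  have b7 : ok (t (0, 0)) (t (1, 1)) (t (3, 0)) (t (3, 1)) (t (4, 1)) (t (5, 1)) = true :=
    ok_reorder t (h (3, 1)) (by decide)
  have b8 : ok (t (1, 1)) (t (2, 0)) (t (4, 0)) (t (4, 1)) (t (5, 0)) (t (6, 0)) = true :=
    ok_reorder t (h (4, 0)) (by decide)
  have b9 : ok (t (1, 0)) (t (2, 1)) (t (4, 0)) (t (4, 1)) (t (5, 1)) (t (6, 1)) = true :=
    ok_reorder t (h (4, 1)) (by decide)
  have b10 : ok (t (2, 1)) (t (3, 0)) (t (5, 0)) (t (5, 1)) (t (6, 0)) (t (7, 0)) = true :=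
    ok_reorder t (h (5, 0)) (by decide)
  have b11 : ok (t (2, 0)) (t (3, 1)) (t (5, 0)) (t (5, 1)) (t (6, 1)) (t (7, 1)) = true :=
    ok_reorder t (h (5, 1)) (by decide)
  have b12 : ok (t (0, 0)) (t (3, 1)) (t (4, 0)) (t (6, 0)) (t (6, 1)) (t (7, 0)) = true :=
    ok_reorder t (h (6, 0)) (by decide)
  have b13 : ok (t (0, 1)) (t (3, 0)) (t (4, 1)) (t (6, 0)) (t (6, 1)) (t (7, 1)) = true :=
    ok_reorder t (h (6, 1)) (by decide)
  have b14 : ok (t (0, 0)) (t (1, 0)) (t (4, 1)) (t (5, 0)) (t (7, 0)) (t (7, 1)) = true :=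
    ok_reorder t (h (7, 0)) (by decide)
  have b15 : ok (t (0, 1)) (t (1, 1)) (t (4, 0)) (t (5, 1)) (t (7, 0)) (t (7, 1)) = true :=
    ok_reorder t (h (7, 1)) (by decide)
  simp only [h0, h6, h1] at b0 b1 b2 b3 b4 b5 b6 b7 b8 b9 b10 b11 b12 b13 b14 b15
  exact key1 (t (1, 0)) (t (1, 1)) (t (2, 0)) (t (2, 1)) (t (3, 1)) (t (4, 0)) (t (5, 0)) b6 (t (6, 1)) b1 (t (7, 0)) b2 (t (4, 1)) b5 (t (5, 1)) b7 b9 (t (6, 0)) b0 b8 b10 b12 (t (7, 1)) b3 b4 b11 b13 b14 b15

theorem arc2 (t : G₀ → Bool) (h : ∀ g : G₀, ok (t ((0, 0) + g)) (t ((0, 1) + g)) (t ((1, 0) + g)) (t ((2, 0) + g))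
    (t ((5, 1) + g)) (t ((6, 0) + g)) = true)
    (h0 : t (0, 0) = true)
    (h7 : t (3, 1) = true)
    (h1 : t (0, 1) = false) : False := by
  have b0 : ok (t (0, 0)) (t (0, 1)) (t (1, 0)) (t (2, 0)) (t (5, 1)) (t (6, 0)) = true :=
    ok_reorder t (h (0, 0)) (by decide)
  have b1 : ok (t (0, 0)) (t (0, 1)) (t (1, 1)) (t (2, 1)) (t (5, 0)) (t (6, 1)) = true :=
    ok_reorder t (h (0, 1)) (by decide)
  have b2 : ok (t (1, 0)) (t (1, 1)) (t (2, 0)) (t (3, 0)) (t (6, 1)) (t (7, 0)) = true :=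
    ok_reorder t (h (1, 0)) (by decide)
  have b3 : ok (t (1, 0)) (t (1, 1)) (t (2, 1)) (t (3, 1)) (t (6, 0)) (t (7, 1)) = true :=
    ok_reorder t (h (1, 1)) (by decide)
  have b4 : ok (t (0, 0)) (t (2, 0)) (t (2, 1)) (t (3, 0)) (t (4, 0)) (t (7, 1)) = true :=
    ok_reorder t (h (2, 0)) (by decide)
  have b5 : ok (t (0, 1)) (t (2, 0)) (t (2, 1)) (t (3, 1)) (t (4, 1)) (t (7, 0)) = true :=
    ok_reorder t (h (2, 1)) (by decide)
  have b6 : ok (t (0, 1)) (t (1, 0)) (t (3, 0)) (t (3, 1)) (t (4, 0)) (t (5, 0)) = true :=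
    ok_reorder t (h (3, 0)) (by decide)
  have b7 : ok (t (0, 0)) (t (1, 1)) (t (3, 0)) (t (3, 1)) (t (4, 1)) (t (5, 1)) = true :=
    ok_reorder t (h (3, 1)) (by decide)
  have b8 : ok (t (1, 1)) (t (2, 0)) (t (4, 0)) (t (4, 1)) (t (5, 0)) (t (6, 0)) = true :=
    ok_reorder t (h (4, 0)) (by decide)
  have b9 : ok (t (1, 0)) (t (2, 1)) (t (4, 0)) (t (4, 1)) (t (5, 1)) (t (6, 1)) = true :=
    ok_reorder t (h (4, 1)) (by decide)
  have b10 : ok (t (2, 1)) (t (3, 0)) (t (5, 0)) (t (5, 1)) (t (6, 0)) (t (7, 0)) = true :=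
    ok_reorder t (h (5, 0)) (by decide)
  have b11 : ok (t (2, 0)) (t (3, 1)) (t (5, 0)) (t (5, 1)) (t (6, 1)) (t (7, 1)) = true :=
    ok_reorder t (h (5, 1)) (by decide)
  have b12 : ok (t (0, 0)) (t (3, 1)) (t (4, 0)) (t (6, 0)) (t (6, 1)) (t (7, 0)) = true :=
    ok_reorder t (h (6, 0)) (by decide)
  have b13 : ok (t (0, 1)) (t (3, 0)) (t (4, 1)) (t (6, 0)) (t (6, 1)) (t (7, 1)) = true :=
    ok_reorder t (h (6, 1)) (by decide)
  have b14 : ok (t (0, 0)) (t (1, 0)) (t (4, 1)) (t (5, 0)) (t (7, 0)) (t (7, 1)) = true :=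
    ok_reorder t (h (7, 0)) (by decide)
  have b15 : ok (t (0, 1)) (t (1, 1)) (t (4, 0)) (t (5, 1)) (t (7, 0)) (t (7, 1)) = true :=
    ok_reorder t (h (7, 1)) (by decide)
  simp only [h0, h7, h1] at b0 b1 b2 b3 b4 b5 b6 b7 b8 b9 b10 b11 b12 b13 b14 b15
  exact key2 (t (1, 0)) (t (1, 1)) (t (2, 0)) (t (2, 1)) (t (3, 0)) (t (4, 0)) (t (5, 0)) b6 (t (6, 1)) b1 (t (7, 0)) b2 (t (4, 1)) b5 (t (5, 1)) b7 b9 (t (6, 0)) b0 b8 b10 b12 (t (7, 1)) b3 b4 b11 b13 b14 b15

theorem arc3 (t : G₀ → Bool) (h : ∀ g : G₀, ok (t ((0, 0) + g)) (t ((0, 1) + g)) (t ((1, 0) + g)) (t ((2, 0) + g))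
    (t ((5, 1) + g)) (t ((6, 0) + g)) = true)
    (h0 : t (0, 0) = true)
    (h6 : t (3, 0) = true)
    (h7 : t (3, 1) = true) : False := by
  have b0 : ok (t (0, 0)) (t (0, 1)) (t (1, 0)) (t (2, 0)) (t (5, 1)) (t (6, 0)) = true :=
    ok_reorder t (h (0, 0)) (by decide)
  have b1 : ok (t (0, 0)) (t (0, 1)) (t (1, 1)) (t (2, 1)) (t (5, 0)) (t (6, 1)) = true :=
    ok_reorder t (h (0, 1)) (by decide)
  have b2 : ok (t (1, 0)) (t (1, 1)) (t (2, 0)) (t (3, 0)) (t (6, 1)) (t (7, 0)) = true :=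
    ok_reorder t (h (1, 0)) (by decide)
  have b3 : ok (t (1, 0)) (t (1, 1)) (t (2, 1)) (t (3, 1)) (t (6, 0)) (t (7, 1)) = true :=
    ok_reorder t (h (1, 1)) (by decide)
  have b4 : ok (t (0, 0)) (t (2, 0)) (t (2, 1)) (t (3, 0)) (t (4, 0)) (t (7, 1)) = true :=
    ok_reorder t (h (2, 0)) (by decide)
  have b5 : ok (t (0, 1)) (t (2, 0)) (t (2, 1)) (t (3, 1)) (t (4, 1)) (t (7, 0)) = true :=
    ok_reorder t (h (2, 1)) (by decide)
  have b6 : ok (t (0, 1)) (t (1, 0)) (t (3, 0)) (t (3, 1)) (t (4, 0)) (t (5, 0)) = true :=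
    ok_reorder t (h (3, 0)) (by decide)
  have b7 : ok (t (0, 0)) (t (1, 1)) (t (3, 0)) (t (3, 1)) (t (4, 1)) (t (5, 1)) = true :=
    ok_reorder t (h (3, 1)) (by decide)
  have b8 : ok (t (1, 1)) (t (2, 0)) (t (4, 0)) (t (4, 1)) (t (5, 0)) (t (6, 0)) = true :=
    ok_reorder t (h (4, 0)) (by decide)
  have b9 : ok (t (1, 0)) (t (2, 1)) (t (4, 0)) (t (4, 1)) (t (5, 1)) (t (6, 1)) = true :=
    ok_reorder t (h (4, 1)) (by decide)
  have b10 : ok (t (2, 1)) (t (3, 0)) (t (5, 0)) (t (5, 1)) (t (6, 0)) (t (7, 0)) = true :=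
    ok_reorder t (h (5, 0)) (by decide)
  have b11 : ok (t (2, 0)) (t (3, 1)) (t (5, 0)) (t (5, 1)) (t (6, 1)) (t (7, 1)) = true :=
    ok_reorder t (h (5, 1)) (by decide)
  have b12 : ok (t (0, 0)) (t (3, 1)) (t (4, 0)) (t (6, 0)) (t (6, 1)) (t (7, 0)) = true :=
    ok_reorder t (h (6, 0)) (by decide)
  have b13 : ok (t (0, 1)) (t (3, 0)) (t (4, 1)) (t (6, 0)) (t (6, 1)) (t (7, 1)) = true :=
    ok_reorder t (h (6, 1)) (by decide)
  have b14 : ok (t (0, 0)) (t (1, 0)) (t (4, 1)) (t (5, 0)) (t (7, 0)) (t (7, 1)) = true :=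
    ok_reorder t (h (7, 0)) (by decide)
  have b15 : ok (t (0, 1)) (t (1, 1)) (t (4, 0)) (t (5, 1)) (t (7, 0)) (t (7, 1)) = true :=
    ok_reorder t (h (7, 1)) (by decide)
  simp only [h0, h6, h7] at b0 b1 b2 b3 b4 b5 b6 b7 b8 b9 b10 b11 b12 b13 b14 b15
  exact key3 (t (0, 1)) (t (1, 0)) (t (1, 1)) (t (2, 0)) (t (2, 1)) (t (4, 0)) (t (5, 0)) b6 (t (6, 1)) b1 (t (7, 0)) b2 (t (4, 1)) b5 (t (5, 1)) b7 b9 (t (6, 0)) b0 b8 b10 b12 (t (7, 1)) b3 b4 b11 b13 b14 b15


/-- no projective plane of any order contains the development of `M₀` as maximal arcs of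
degree 2 -/
theorem not_embeds (P L : Type*) [Membership P L] [Configuration.ProjectivePlane P L] :
    ¬ Embeds G₀ M₀ P L 2 := by
  classical
  rintro ⟨φ, hφ, h⟩
  have hall : ∀ l : L, ∀ g : G₀, ok (decide (φ ((0, 0) + g) ∈ l)) (decide (φ ((0, 1) + g) ∈ l))
      (decide (φ ((1, 0) + g) ∈ l)) (decide (φ ((2, 0) + g) ∈ l)) (decide (φ ((5, 1) + g) ∈ l))
      (decide (φ ((6, 0) + g) ∈ l)) = true := fun l g =>
    ok_of_arc hφ l g (h g) (fun x => decide (φ x ∈ l)) (fun x => by simp)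
  have ne1 : φ (0, 0) ≠ φ (3, 0) := fun e => absurd (hφ e) (by decide)
  have ne2 : φ (0, 0) ≠ φ (3, 1) := fun e => absurd (hφ e) (by decide)
  have ne3 : φ (0, 0) ≠ φ (0, 1) := fun e => absurd (hφ e) (by decide)
  obtain ⟨h10, h11⟩ := Configuration.HasLines.mkLine_ax (L := L) ne1
  obtain ⟨h20, h21⟩ := Configuration.HasLines.mkLine_ax (L := L) ne2
  set l1 : L := Configuration.HasLines.mkLine ne1 with hl1
  set l2 : L := Configuration.HasLines.mkLine ne2 with hl2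
  have c1 : φ (0, 1) ∈ l1 := by
    by_contra hc
    exact arc1 (fun x => decide (φ x ∈ l1)) (hall l1) (by simpa using h10) (by simpa using h11)
      (by simpa using hc)
  have c2 : φ (0, 1) ∈ l2 := by
    by_contra hc
    exact arc2 (fun x => decide (φ x ∈ l2)) (hall l2) (by simpa using h20) (by simpa using h21)
      (by simpa using hc)
  have e : l1 = l2 :=
    (Configuration.Nondegenerate.eq_or_eq h10 c1 h20 c2).resolve_left ne3
  rw [← e] at h21
  exact arc3 (fun x => decide (φ x ∈ l1)) (hall l1) (by simpa using h10) (by simpa using h11)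
    (by simpa using h21)

/-- Negative answer to Q1 of MP_82bed6_co, at `b = 2`: the group `ℤ/8 × ℤ/2` of order `16`
contains a Hadamard difference set of order `4` whose development embeds, as a set of maximal
arcs of degree `2`, into no projective plane of order `4`. -/
theorem result :
    ∃ b : ℕ, 1 ≤ b ∧ ∃ (G : Type) (_ : AddCommGroup G) (M : Finset G),
      IsHadamardDifferenceSet b G M ∧
      ∀ (P : Type u) (L : Type v) [Membership P L] [Fintype P] [Fintype L]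
        [Configuration.ProjectivePlane P L],
        Configuration.ProjectivePlane.order P L = 2 ^ b → ¬ Embeds G M P L (2 ^ (b - 1)) :=
  ⟨2, by norm_num, G₀, inferInstance, M₀, M₀_hds, fun P L _ _ _ _ _ => not_embeds P L⟩

end Pool.Agent.Results.MP_82bed6_co.NoEmbedding
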